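import Pool.Agent.W458.MF.OStm

/-!
# Project MF: a Frobenius element exchanging two pairs of roots
(adapted from Pool.Agent.W976.MF.FLIP and Pool.Agent.W521.Frob)
-/

set_option autoImplicit false

namespace Pool.Agent.W902.MF

open Polynomial NumberField
open Pool.Agent.W521.Frob Pool.Agent.W458.MF

theorem FLIP2 : St_FLIP2 := by
  intro I q h R U hm hRm L _ _ _ i₀ hsplit hsplit2 l hl hl2 hlq hRs hspl hpat
  classical
  have : Fact l.Prime := ⟨hl⟩
  obtain ⟨T0, t₀, s₁, ht₀0, hs₁0, hts, hfac0, hns, hns₁, hU, hsq0⟩ := hpat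
  have hT : ∀ i, ∃ T : Finset (ZMod l), (h i).map (Int.castRingHom (ZMod l)) = ∏ t ∈ T, (X - C t) ∧
      (i = i₀ → T = T0) ∧ ∀ t ∈ T, ¬ (i = i₀ ∧ (t = t₀ ∨ t = s₁)) →
        IsSquare (t ^ 2 - 4 * (q i : ZMod l)) ∧ t ^ 2 - 4 * (q i : ZMod l) ≠ 0 := by
    intro i
    by_cases hi : i = i₀
    · subst hi
      exact ⟨T0, hfac0, fun _ => rfl, fun t ht hne => hsq0 t ht (fun h => hne ⟨rfl, Or.inl h⟩)
        fun h => hne ⟨rfl, Or.inr h⟩⟩
    · obtain ⟨T, -, h1, h2⟩ := hspl i hi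
      exact ⟨T, h1, fun h => absurd h hi, fun t ht _ => h2 t ht⟩
  choose T hfac hTi₀ hsq using hT
  have ht₀ : t₀ ∈ T i₀ := by
    rw [hTi₀ i₀ rfl]
    exact ht₀0
  have hs₁ : s₁ ∈ T i₀ := by
    rw [hTi₀ i₀ rfl]
    exact hs₁0
  obtain ⟨k, _, hchar, φ, σ, hσ⟩ := exists_frob L l hl
  let ψ : ZMod l →+* k := ZMod.castHom dvd_rfl k
  have hψ : Function.Injective ψ := ψ.injective
  have hq0 : ∀ i, q i ≠ 0 := by
    intro i h0
    apply hlq i
    rw [h0]
    exact dvd_zero _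
  have hqk : ∀ i, (q i : k) ≠ 0 := by
    intro i
    rw [Ne, CharP.cast_eq_zero_iff k l]
    exact hlq i
  have hqL : ∀ i, (q i : L) ≠ 0 := fun i => by exact_mod_cast hq0 i
  have h2k : (2 : k) ≠ 0 := by
    have h1 : ((2 : ℕ) : k) ≠ 0 := by
      rw [Ne, CharP.cast_eq_zero_iff k l]
      intro h1
      exact hl2 ((Nat.prime_dvd_prime_iff_eq hl Nat.prime_two).1 h1)
    exact_mod_cast h1
  have hdisc : ∀ i, ∀ t ∈ T i, t ^ 2 - 4 * (q i : ZMod l) ≠ 0 := by
    intro i t ht h0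
    by_cases hc : i = i₀ ∧ (t = t₀ ∨ t = s₁)
    · obtain ⟨rfl, rfl | rfl⟩ := hc
      · rw [h0] at hns
        exact hns (IsSquare.zero)
      · rw [h0] at hns₁
        exact hns₁ (IsSquare.zero)
    · exact (hsq i t ht hc).2 h0
  have hsep : ∀ i, ((h i).map (Int.castRingHom k)).Separable := by
    intro i
    have h1 : (h i).map (Int.castRingHom k) = ∏ t ∈ T i, (X - C (ψ t)) := by
      rw [← RingHom.ext_int (ψ.comp (Int.castRingHom (ZMod l))) (Int.castRingHom k),
        ← Polynomial.map_map, hfac i, Polynomial.map_prod]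
      refine Finset.prod_congr rfl fun t _ => ?_
      rw [Polynomial.map_sub, map_X, map_C]
    rw [h1]
    refine separable_prod_X_sub_C_iff'.2 ?_
    intro a _ b _ hab
    exact hψ hab
  -- the image of a root of `h i`
  have hroot : ∀ i, ∀ t : 𝓞 L, aeval t (h i) = 0 → ∃ s ∈ T i, φ t = ψ s := by
    intro i t ht
    have h1 : ((h i).map (Int.castRingHom k)).eval (φ t) = 0 := by
      have h2 : φ (eval₂ (Int.castRingHom (𝓞 L)) t (h i)) = 0 := by
        have h3 : eval₂ (Int.castRingHom (𝓞 L)) t (h i) = aeval t (h i) := rfl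
        rw [h3, ht, map_zero]
      rw [Polynomial.hom_eval₂] at h2
      rw [eval_map]
      rwa [RingHom.ext_int (φ.comp (Int.castRingHom (𝓞 L))) (Int.castRingHom k)] at h2
    have h4 : (h i).map (Int.castRingHom k) = ∏ t ∈ T i, (X - C (ψ t)) := by
      rw [← RingHom.ext_int (ψ.comp (Int.castRingHom (ZMod l))) (Int.castRingHom k),
        ← Polynomial.map_map, hfac i, Polynomial.map_prod]
      refine Finset.prod_congr rfl fun t _ => ?_
      rw [Polynomial.map_sub, map_X, map_C]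
    rw [h4, eval_prod, Finset.prod_eq_zero_iff] at h1
    obtain ⟨s, hs, hs2⟩ := h1
    refine ⟨s, hs, ?_⟩
    rw [eval_sub, eval_X, eval_C, sub_eq_zero] at hs2
    exact hs2
  -- integrality
  have hint : ∀ i, ∀ β : L, aeval β (weil (q i) (h i)) = 0 → ∃ b t : 𝓞 L, (b : L) = β ∧
      (t : L) = β + q i / β ∧ b ^ 2 + (q i : 𝓞 L) = t * b ∧ aeval t (h i) = 0 := by
    intro i β hβ
    have h1 : IsIntegral ℤ β := ⟨weil (q i) (h i), weil_monic (q i) (hm i), hβ⟩
    have h2 := (root_iff (hq0 i) (hm i) β).1 hβ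
    have h3 : IsIntegral ℤ (β + q i / β) := ⟨h i, hm i, h2.2⟩
    refine ⟨⟨β, h1⟩, ⟨β + q i / β, h3⟩, rfl, rfl, ?_, ?_⟩
    · apply RingOfIntegers.ext
      change β ^ 2 + (algebraMap (𝓞 L) L) (q i : 𝓞 L) = (β + q i / β) * β
      rw [map_natCast]
      have := h2.1
      field_simp
    · apply RingOfIntegers.coe_injective
      have h5 := aeval_algebraMap_apply L (⟨β + q i / β, h3⟩ : 𝓞 L) (h i)
      exact h5.symm.trans (h2.2.trans (map_zero _).symm)
  -- the reduction is injective on the roots of one block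
  have hφ0 : ∀ i, ∀ b t : 𝓞 L, b ^ 2 + (q i : 𝓞 L) = t * b → φ b ≠ 0 := by
    intro i b t hb h0
    have h1 := congrArg φ hb
    rw [map_add, map_mul, map_pow, h0, map_natCast, mul_zero, zero_pow two_ne_zero, zero_add] at h1
    exact hqk i h1
  have hquad : ∀ i, ∀ b t : 𝓞 L, b ^ 2 + (q i : 𝓞 L) = t * b →
      φ b ^ 2 + (q i : k) = φ t * φ b := by
    intro i b t hb
    have h1 := congrArg φ hb
    rwa [map_add, map_mul, map_pow, map_natCast] at h1
  have hsame : ∀ i, ∀ b b' t : 𝓞 L, b ^ 2 + (q i : 𝓞 L) = t * b →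
      b' ^ 2 + (q i : 𝓞 L) = t * b' → b ≠ b' → b + b' = t := by
    intro i b b' t hb hb' hne
    have h1 : (b - b') * (b + b' - t) = 0 := by linear_combination hb - hb'
    exact sub_eq_zero.1 ((mul_eq_zero.1 h1).resolve_left (sub_ne_zero.2 hne))
  have hinj : ∀ i, ∀ b b' t t' : 𝓞 L, b ^ 2 + (q i : 𝓞 L) = t * b →
      b' ^ 2 + (q i : 𝓞 L) = t' * b' → aeval t (h i) = 0 → aeval t' (h i) = 0 → φ b = φ b' → b = b' := by
    intro i b b' t t' hb hb' ht ht' hbb
    have h1 := hquad i b t hb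
    have h2 := hquad i b' t' hb'
    rw [← hbb] at h2
    have h3 : φ t = φ t' := mul_right_cancel₀ (hφ0 i b t hb) (h1.symm.trans h2)
    have h4 : t = t' := eq_of_map_eq φ (h i) (hsep i) t t' ht ht' h3
    subst h4
    by_contra hne
    have h5 := hsame i b b' t hb hb' hne
    obtain ⟨s, hs, hs2⟩ := hroot i t ht
    have h6 : ψ (s ^ 2 - 4 * (q i : ZMod l)) = 0 := by
      rw [map_sub, map_pow, map_mul, map_natCast, map_ofNat, ← hs2, ← h5, map_add, ← hbb]
      rw [← h5, map_add, ← hbb] at h1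
      linear_combination (-4 : k) * h1
    exact hdisc i s hs ((map_eq_zero ψ).1 h6)
  -- Galois action
  have hsmul : ∀ x : 𝓞 L, ((σ • x : 𝓞 L) : L) = σ (x : L) := fun x => rfl
  have hσq : ∀ i, ∀ b t : 𝓞 L, b ^ 2 + (q i : 𝓞 L) = t * b →
      (σ • b) ^ 2 + (q i : 𝓞 L) = (σ • t) * (σ • b) := by
    intro i b t hb
    have h1 := congrArg (fun x => σ • x) hb
    simp only [smul_add, smul_mul', smul_pow'] at h1
    have h2 : σ • ((q i : ℕ) : 𝓞 L) = (q i : 𝓞 L) :=
      map_natCast (MulSemiringAction.toRingHom (Gal(L/ℚ)) (𝓞 L) σ) (q i)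
    rwa [h2] at h1
  have hσt : ∀ i, ∀ t : 𝓞 L, aeval t (h i) = 0 → aeval (σ • t) (h i) = 0 := by
    intro i t ht
    apply RingOfIntegers.coe_injective
    have h1 := aeval_algebraMap_apply L (σ • t) (h i)
    have h2 := aeval_algebraMap_apply L t (h i)
    rw [ht, map_zero] at h2
    have h3 : aeval (σ ((algebraMap (𝓞 L) L) t)) (h i) = σ (aeval ((algebraMap (𝓞 L) L) t) (h i)) := by
      change eval₂ _ _ _ = σ (eval₂ _ _ _)
      rw [← AlgEquiv.coe_ringEquiv σ, ← RingEquiv.coe_toRingHom, Polynomial.hom_eval₂]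
      congr 1
      exact RingHom.ext_int _ _
    rw [h2, map_zero] at h3
    exact h1.symm.trans (h3.trans (map_zero _).symm)
  have hψl : ∀ x : ZMod l, ψ x ^ l = ψ x := by
    intro x
    rw [← map_pow, ZMod.pow_card]
  have h2l : (2 : k) ^ l = 2 := by
    have := hψl 2
    rwa [map_ofNat] at this
  -- the root `t₁` of `h i₀` with image `t₀`
  have hlift : ∀ R : Multiset L, (∀ x ∈ R, IsIntegral ℤ x) →
      ∃ R' : Multiset (𝓞 L), R'.map (algebraMap (𝓞 L) L) = R := by
    intro R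
    induction R using Multiset.induction_on with
    | empty => exact fun _ => ⟨0, rfl⟩
    | cons a s ih =>
      intro hR
      obtain ⟨R', hR'⟩ := ih fun x hx => hR x (Multiset.mem_cons_of_mem hx)
      obtain ⟨a', ha'⟩ : ∃ a' : 𝓞 L, algebraMap (𝓞 L) L a' = a :=
        ⟨⟨a, hR a (Multiset.mem_cons_self a s)⟩, rfl⟩
      refine ⟨a' ::ₘ R', ?_⟩
      rw [Multiset.map_cons, hR', ha']
  have hlr : ∀ s ∈ T i₀, ∃ t : 𝓞 L, aeval t (h i₀) = 0 ∧ φ t = ψ s := by
    intro s hs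
    obtain ⟨R', hR'⟩ := hlift ((h i₀).map (algebraMap ℤ L)).roots (by
      intro x hx
      have h1 := (mem_roots'.1 hx).2
      rw [IsRoot.def, eval_map] at h1
      exact ⟨h i₀, hm i₀, h1⟩)
    have h1 : (h i₀).map (algebraMap ℤ L) = ((h i₀).map (algebraMap ℤ (𝓞 L))).map
        (algebraMap (𝓞 L) L) := by
      rw [Polynomial.map_map]
      congr 1
    have h2 : (h i₀).map (algebraMap ℤ (𝓞 L)) = (R'.map (fun a => X - C a)).prod := by
      apply Polynomial.map_injective (algebraMap (𝓞 L) L) RingOfIntegers.coe_injective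
      rw [← h1, hsplit.eq_prod_roots_of_monic ((hm i₀).map _), ← hR', Polynomial.map_multiset_prod,
        Multiset.map_map, Multiset.map_map]
      congr 1
      refine Multiset.map_congr rfl fun x _ => ?_
      simp
    have h3 : ((h i₀).map (Int.castRingHom k)).eval (ψ s) = 0 := by
      rw [← RingHom.ext_int (ψ.comp (Int.castRingHom (ZMod l))) (Int.castRingHom k),
        ← Polynomial.map_map, hfac i₀, Polynomial.map_prod, eval_prod]
      refine Finset.prod_eq_zero hs ?_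
      simp
    have h4 : (h i₀).map (Int.castRingHom k) = (R'.map (fun a => X - C (φ a))).prod := by
      have h5 : (h i₀).map (Int.castRingHom k) = ((h i₀).map (algebraMap ℤ (𝓞 L))).map φ := by
        rw [Polynomial.map_map]
        congr 1
        exact RingHom.ext_int _ _
      rw [h5, h2, Polynomial.map_multiset_prod, Multiset.map_map]
      congr 1
      refine Multiset.map_congr rfl fun x _ => ?_
      simp
    rw [h4, eval_multiset_prod, Multiset.map_map, Multiset.prod_eq_zero_iff, Multiset.mem_map] at h3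
    obtain ⟨t, ht, ht2⟩ := h3
    refine ⟨t, ?_, ?_⟩
    · have h5 : ((h i₀).map (algebraMap ℤ (𝓞 L))).eval t = 0 := by
        rw [h2, eval_multiset_prod, Multiset.map_map]
        refine Multiset.prod_eq_zero (Multiset.mem_map.2 ⟨t, ht, ?_⟩)
        simp
      rw [eval_map] at h5
      exact h5
    · simp only [Function.comp_apply, eval_sub, eval_X, eval_C] at ht2
      exact (sub_eq_zero.1 ht2).symm
  have hl' : l = 2 * (l / 2) + 1 := by
    rcases hl.eq_two_or_odd' with h1 | h1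
    · exact absurd h1 hl2
    · obtain ⟨c, hc⟩ := h1
      omega
  -- the flipped pairs
  have hflip : ∀ s ∈ T i₀, ¬ IsSquare (s ^ 2 - 4 * (q i₀ : ZMod l)) → ∀ t : 𝓞 L,
      aeval t (h i₀) = 0 → φ t = ψ s → ∀ a : 𝓞 L, a ^ 2 + (q i₀ : 𝓞 L) = t * a →
      σ • a = t - a ∧ a ≠ t - a := by
    intro s hs hnsq t htr hφt a hat
    have hat' : (t - a) ^ 2 + (q i₀ : 𝓞 L) = t * (t - a) := by linear_combination hat
    have hq1 := hquad i₀ a t hat
    have hd0 : s ^ 2 - 4 * (q i₀ : ZMod l) ≠ 0 := hdisc i₀ s hs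
    have hdpow : (s ^ 2 - 4 * (q i₀ : ZMod l)) ^ (l / 2) = -1 := by
      rcases ZMod.pow_div_two_eq_neg_one_or_one l hd0 with h1 | h1
      · exact absurd ((ZMod.euler_criterion l hd0).2 h1) hnsq
      · exact h1
    have hy : (2 * φ a - ψ s) ^ 2 = ψ (s ^ 2 - 4 * (q i₀ : ZMod l)) := by
      rw [map_sub, map_pow, map_mul, map_natCast, map_ofNat, ← hφt]
      linear_combination (4 : k) * hq1
    have hyl : (2 * φ a - ψ s) ^ l = -(2 * φ a - ψ s) := by
      have e1 : (2 * φ a - ψ s) ^ l = (2 * φ a - ψ s) ^ (2 * (l / 2) + 1) := congrArg _ hl'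
      rw [e1, pow_succ, pow_mul, hy, ← map_pow, hdpow, map_neg, map_one]
      ring
    have hal : φ a ^ l = φ (t - a) := by
      have h1 : (2 * φ a - ψ s) ^ l = (2 * φ a) ^ l - ψ s ^ l := sub_pow_char _ _
      rw [h1, hψl, mul_pow, h2l] at hyl
      rw [map_sub, hφt]
      apply mul_left_cancel₀ h2k
      linear_combination hyl
    refine ⟨?_, ?_⟩
    · refine hinj i₀ (σ • a) (t - a) (σ • t) t (hσq i₀ a t hat) hat' (hσt i₀ t htr) htr ?_
      rw [hσ, hal]
    · intro h2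
      have h3 : 2 * φ a - ψ s = 0 := by
        have h4 := congrArg φ h2
        rw [map_sub, hφt] at h4
        linear_combination h4
      rw [h3, zero_pow two_ne_zero] at hy
      exact hd0 ((map_eq_zero ψ).1 hy.symm)
  obtain ⟨τ₀, hτ₀, hφτ₀⟩ := hlr t₀ ht₀
  obtain ⟨τ₁, hτ₁, hφτ₁⟩ := hlr s₁ hs₁
  have hflipL : ∀ s ∈ T i₀, ¬ IsSquare (s ^ 2 - 4 * (q i₀ : ZMod l)) → ∀ t : 𝓞 L,
      aeval t (h i₀) = 0 → φ t = ψ s → ∀ β : L, aeval β (weil (q i₀) (h i₀)) = 0 →
      β + (q i₀ : L) / β = t → σ β = (q i₀ : L) / β ∧ β ≠ (q i₀ : L) / β := by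
    intro s hs hnsq t htr hφt β hβ hβt
    obtain ⟨b, t', hb, ht', hbt, -⟩ := hint i₀ β hβ
    have htt : t' = t := RingOfIntegers.coe_injective (ht'.trans hβt)
    subst htt
    obtain ⟨h1, h2⟩ := hflip s hs hnsq t' htr hφt b hbt
    have hinv : (q i₀ : L) / β = ((t' - b : 𝓞 L) : L) := by
      have h1 : ((t' - b : 𝓞 L) : L) = (t' : L) - b := map_sub _ _ _
      rw [h1, ht', hb]
      ring
    refine ⟨?_, ?_⟩
    · rw [hinv, ← h1, hsmul, hb]
    · intro h3
      rw [hinv, ← hb] at h3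
      exact h2 (RingOfIntegers.coe_injective h3)
  have hfix : ∀ i, ∀ β : L, aeval β (weil (q i) (h i)) = 0 →
      (i = i₀ → β + (q i : L) / β ≠ τ₀ ∧ β + (q i : L) / β ≠ τ₁) → σ β = β := by
    intro i β hβ hne
    obtain ⟨b, t', hb, ht', hbt, htr'⟩ := hint i β hβ
    obtain ⟨s, hs, hs2⟩ := hroot i t' htr'
    have hcase : ¬ (i = i₀ ∧ (s = t₀ ∨ s = s₁)) := by
      rintro ⟨rfl, rfl | rfl⟩
      · obtain ⟨hne1, -⟩ := hne rfl
        have h1 : t' = τ₀ := eq_of_map_eq φ (h i) (hsep i) t' τ₀ htr' hτ₀ (by rw [hs2, hφτ₀])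
        exact hne1 (by rw [← ht', h1])
      · obtain ⟨-, hne1⟩ := hne rfl
        have h1 : t' = τ₁ := eq_of_map_eq φ (h i) (hsep i) t' τ₁ htr' hτ₁ (by rw [hs2, hφτ₁])
        exact hne1 (by rw [← ht', h1])
    obtain ⟨⟨r, hr⟩, -⟩ := hsq i s hs hcase
    have h1 : (2 * φ b - ψ s) ^ 2 = ψ r ^ 2 := by
      rw [← map_pow ψ r 2, sq r, ← hr, map_sub, map_pow, map_mul, map_natCast, map_ofNat, ← hs2]
      linear_combination (4 : k) * hquad i b t' hbt
    have h2 : ∃ u : ZMod l, 2 * φ b = ψ u := by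
      rcases sq_eq_sq_iff_eq_or_eq_neg.1 h1 with h3 | h3
      · exact ⟨s + r, by rw [map_add]; linear_combination h3⟩
      · exact ⟨s - r, by rw [map_sub]; linear_combination h3⟩
    obtain ⟨u, hu⟩ := h2
    have h3 : φ b ^ l = φ b := by
      have h4 := hψl u
      rw [← hu, mul_pow, h2l] at h4
      exact mul_left_cancel₀ h2k h4
    have h4 : σ • b = b := by
      refine hinj i (σ • b) b (σ • t') t' (hσq i b t' hbt) hbt (hσt i t' htr') htr' ?_
      rw [hσ, h3]
    rw [← hb, ← hsmul, h4]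
  refine ⟨σ, (τ₀ : L), (τ₁ : L), ?_, ?_, ?_, ?_, ?_, ?_, ?_, ?_⟩
  · rw [aeval_algebraMap_apply, hτ₀, map_zero]
  · rw [aeval_algebraMap_apply, hτ₁, map_zero]
  · intro h0
    have h1 : τ₀ = τ₁ := RingOfIntegers.coe_injective h0
    apply hts
    apply hψ
    rw [← hφτ₀, ← hφτ₁, h1]
  · intro h0
    rw [aeval_algebraMap_apply] at h0
    have h1 : aeval τ₀ U = 0 := RingOfIntegers.coe_injective (h0.trans (map_zero _).symm)
    have h2 : φ (eval₂ (Int.castRingHom (𝓞 L)) τ₀ U) = 0 := by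
      have h3 : eval₂ (Int.castRingHom (𝓞 L)) τ₀ U = aeval τ₀ U := rfl
      rw [h3, h1, map_zero]
    rw [Polynomial.hom_eval₂, RingHom.ext_int (φ.comp (Int.castRingHom (𝓞 L)))
      (ψ.comp (Int.castRingHom (ZMod l))), hφτ₀, ← Polynomial.hom_eval₂, ← eval_map] at h2
    exact hU ((map_eq_zero ψ).1 h2)
  · intro β hβ hβθ
    rcases hβθ with h1 | h1
    · exact hflipL t₀ ht₀ hns τ₀ hτ₀ hφτ₀ β hβ h1
    · exact hflipL s₁ hs₁ hns₁ τ₁ hτ₁ hφτ₁ β hβ h1
  · intro β hβ hne1 hne2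
    exact hfix i₀ β hβ fun _ => ⟨hne1, hne2⟩
  · intro i hi β hβ
    exact hfix i β hβ fun h => absurd h hi
  · intro β hβ
    obtain ⟨TR, hTR⟩ := hRs
    have hRk : R.map (Int.castRingHom k) = ∏ t ∈ TR, (X - C (ψ t)) := by
      rw [← RingHom.ext_int (ψ.comp (Int.castRingHom (ZMod l))) (Int.castRingHom k),
        ← Polynomial.map_map, hTR, Polynomial.map_prod]
      refine Finset.prod_congr rfl fun t _ => ?_
      rw [Polynomial.map_sub, map_X, map_C]
    have hRsep : (R.map (Int.castRingHom k)).Separable := by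
      rw [hRk]
      refine separable_prod_X_sub_C_iff'.2 ?_
      intro a _ b _ hab
      exact hψ hab
    have h1 : IsIntegral ℤ β := ⟨R, hRm, hβ⟩
    set b : 𝓞 L := ⟨β, h1⟩ with hbdef
    have hbR : aeval b R = 0 := by
      apply RingOfIntegers.coe_injective
      have h5 := aeval_algebraMap_apply L b R
      exact h5.symm.trans (hβ.trans (map_zero _).symm)
    have hroots : ∀ x : 𝓞 L, aeval x R = 0 → ∃ s ∈ TR, φ x = ψ s := by
      intro x hx
      have h2 : (R.map (Int.castRingHom k)).eval (φ x) = 0 := by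
        have h3 : φ (eval₂ (Int.castRingHom (𝓞 L)) x R) = 0 := by
          have h4 : eval₂ (Int.castRingHom (𝓞 L)) x R = aeval x R := rfl
          rw [h4, hx, map_zero]
        rw [Polynomial.hom_eval₂] at h3
        rw [eval_map]
        rwa [RingHom.ext_int (φ.comp (Int.castRingHom (𝓞 L))) (Int.castRingHom k)] at h3
      rw [hRk, eval_prod, Finset.prod_eq_zero_iff] at h2
      obtain ⟨s, hs, hs2⟩ := h2
      refine ⟨s, hs, ?_⟩
      rw [eval_sub, eval_X, eval_C, sub_eq_zero] at hs2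
      exact hs2
    have hσR : aeval (σ • b) R = 0 := by
      apply RingOfIntegers.coe_injective
      have h1 := aeval_algebraMap_apply L (σ • b) R
      have h3 : aeval (σ ((algebraMap (𝓞 L) L) b)) R = σ (aeval ((algebraMap (𝓞 L) L) b) R) := by
        change eval₂ _ _ _ = σ (eval₂ _ _ _)
        rw [← AlgEquiv.coe_ringEquiv σ, ← RingEquiv.coe_toRingHom, Polynomial.hom_eval₂]
        congr 1
        exact RingHom.ext_int _ _
      have h2 := aeval_algebraMap_apply L b R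
      rw [hbR, map_zero] at h2
      rw [h2, map_zero] at h3
      exact h1.symm.trans (h3.trans (map_zero _).symm)
    obtain ⟨s, hs, hs2⟩ := hroots b hbR
    have h4 : σ • b = b := by
      refine eq_of_map_eq φ R hRsep (σ • b) b hσR hbR ?_
      rw [hσ, hs2, hψl]
    have h5 : ((σ • b : 𝓞 L) : L) = σ (b : L) := hsmul b
    rw [h4] at h5
    exact h5.symm

end Pool.Agent.W902.MF
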